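import Pool.Agent.H91.Drazin

set_option autoImplicit false

open H91.WShift H91.Drazin in
theorem Pool.Agent.Results.MP_632fda_an.Q1No.result :
    Q1Fails L2 L2 :=
  main.1
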