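import Pool.Agent.H91.Drazin

set_option autoImplicit false

open H91.WShift H91.Drazin in
theorem Pool.Agent.Results.MP_632fda_an.Q2Yes.result :
    ∀ (H K : Type) [NormedAddCommGroup H] [InnerProductSpace ℂ H]
    [CompleteSpace H] [NormedAddCommGroup K] [InnerProductSpace ℂ K] [CompleteSpace K],
    Q2Holds H K :=
  main.2
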